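import Pool.Agent.H17.SRG4

set_option autoImplicit false

namespace Pool.Agent.Results.MP_d81a4d_co.Unbounded

open Pool.Agent.H17.SRG

theorem result (k : ℕ) : ∃ (V : Type) (_ : Fintype V) (G H : SimpleGraph V)
    (_ : DecidableRel G.Adj) (_ : DecidableRel H.Adj) (n d l m : ℕ),
    G.IsSRGWith n d l m ∧ H.IsSRGWith n d l m ∧ IsEmpty (G ≃g H) ∧
    ∃ F : (Fin k → V) ≃ (Fin k → V), ∀ t S, wl k G t S = wl k H t (F S) := by
  classical
  let n := 4 ^ (k + 1) * 8 + 1
  have hq : Fintype.card (TT n → F2) = 4 * 2 ^ (n + n * n - 2) := by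
    have : 2 ≤ n + n * n := by
      have : 0 < n := Nat.succ_pos _
      nlinarith
    simp only [Fintype.card_fun, ZMod.card, Fintype.card_sum, Fintype.card_prod, Fintype.card_fin]
    rw [show 4 = 2 ^ 2 from rfl, ← pow_add]
    congr 1; omega
  let p : Fin n := ⟨0, Nat.succ_pos _⟩
  exact ⟨_, _, _, _, _, _, _, _, _, _, srg hq _ 0 (phi_inj _) (phi_self AA_par),
    srg hq _ _ (phi_inj _) (phi_self AA_par),
    noniso _ _ (unsolv (PP n) AA_par _ (.inr (p, p)) (AA_f p) (by simp) (par_single _)),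
    main k (Nat.lt_succ_self _) p⟩

end Pool.Agent.Results.MP_d81a4d_co.Unbounded
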